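import Pool.Agent.Helper97.EKC.Spiral

/-!
MP_16b0ee, project EKC: the exponent `|t| - 1` is attained for every complex `t = -κ conj u`,
`u ≠ -1`, `κ > 1`, by the spiral map `z (1 - 1/z)^(1+u)`.
-/

set_option autoImplicit false

open Complex MeasureTheory Metric Set Filter Topology
open scoped Real ComplexConjugate

namespace Pool.Agent.Helper97.EKC

variable {u : ℂ}

theorem psi_diff (hu : ‖u‖ = 1) : DifferentiableOn ℂ (psi u) {z : ℂ | 1 < ‖z‖} :=
  fun _ hz => (hasDerivAt_psi hu hz).differentiableAt.differentiableWithinAt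

theorem hh_diff (hu : ‖u‖ = 1) : DifferentiableOn ℂ (hh u) {z : ℂ | 1 < ‖z‖} := by
  intro z hz
  obtain ⟨d, hd⟩ := hasDerivAt_hh (u := u) hu hz
  exact hd.differentiableAt.differentiableWithinAt

theorem exp_hh (hu : ‖u‖ = 1) {z : ℂ} (hz : 1 < ‖z‖) :
    Complex.exp (hh u z) = deriv (psi u) z := (hasDerivAt_psi hu hz).deriv.symm

theorem psi_tendsto (u : ℂ) :
    Tendsto (fun z => psi u z - z) (Bornology.cobounded ℂ) (𝓝 (-(1 + u))) := by
  have hg : HasDerivAt (fun ζ : ℂ => Complex.exp ((1 + u) * Complex.log (1 - ζ)))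
      (-(1 + u)) 0 := by
    have d1 : HasDerivAt (fun ζ : ℂ => Complex.log (1 - ζ)) (-1 / (1 - 0)) 0 :=
      ((hasDerivAt_id (0:ℂ)).const_sub 1).clog (Or.inl (by simp))
    refine ((d1.const_mul (1 + u)).cexp).congr_deriv ?_
    simp
  have hs := hasDerivAt_iff_tendsto_slope.1 hg
  have ht : Tendsto (fun z : ℂ => z⁻¹) (Bornology.cobounded ℂ) (𝓝[≠] 0) :=
    tendsto_nhdsWithin_iff.2 ⟨tendsto_inv₀_cobounded,
      (Bornology.eventually_ne_cobounded 0).mono fun z hz => inv_ne_zero hz⟩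
  refine (hs.comp ht).congr' ?_
  filter_upwards [Bornology.eventually_ne_cobounded (0 : ℂ)] with z hz
  simp only [Function.comp, slope_def_field, psi, sub_zero, Complex.log_one, mul_zero,
    Complex.exp_zero]
  rw [div_inv_eq_mul]
  ring

theorem hh_tendsto (u : ℂ) : Tendsto (hh u) (Bornology.cobounded ℂ) (𝓝 0) := by
  have hg : ContinuousAt (fun ζ : ℂ => u * Complex.log (1 - ζ) + Complex.log (1 + u * ζ)) 0 := by
    have d1 : ContinuousAt (fun ζ : ℂ => Complex.log (1 - ζ)) 0 :=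
      ContinuousAt.clog (by fun_prop) (Or.inl (by simp))
    have d2 : ContinuousAt (fun ζ : ℂ => Complex.log (1 + u * ζ)) 0 :=
      ContinuousAt.clog (by fun_prop) (Or.inl (by simp))
    exact (continuousAt_const.mul d1).add d2
  have ht : Tendsto (fun z : ℂ => z⁻¹) (Bornology.cobounded ℂ) (𝓝 0) := tendsto_inv₀_cobounded
  have := hg.tendsto.comp ht
  simp only [sub_zero, Complex.log_one, mul_zero, add_zero] at this
  exact this

/-- `log (1 + u ζ)` is bounded in a small sector around the positive axis -/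
theorem log_bound (hu : ‖u‖ = 1) {δ : ℝ} (hδ : 4 * δ = ‖1 + u‖) (hδ0 : 0 < δ)
    {r θ : ℝ} (hr : 0 < r) (hr1 : r < 1) (hθ : 0 ≤ θ) (hθ1 : θ ≤ δ) :
    ‖Complex.log (1 + u * (r * Complex.exp (-(θ * I))))‖ ≤ Real.log 2 - Real.log δ + π := by
  obtain ⟨w, hw⟩ : ∃ w : ℂ, w = 1 + u * (r * Complex.exp (-(θ * I))) := ⟨_, rfl⟩
  have he : ‖Complex.exp (-(θ * I)) - 1‖ ≤ θ := by
    have := Real.norm_exp_I_mul_ofReal_sub_one_le (x := -θ)
    rw [Real.norm_eq_abs, abs_neg, abs_of_nonneg hθ] at this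
    rw [show -((θ : ℂ) * I) = I * ((-θ : ℝ) : ℂ) by push_cast; ring]
    exact this
  have hn : ‖Complex.exp (-(θ * I))‖ = 1 := by
    rw [show -((θ : ℂ) * I) = ((-θ : ℝ) : ℂ) * I by push_cast; ring]
    exact Complex.norm_exp_ofReal_mul_I _
  have h1 : ‖1 + u‖ ≤ 2 * ‖1 + u * r‖ := by
    have a1 : ‖1 + u‖ ≤ ‖1 + u * r‖ + (1 - r) := by
      have : 1 + u = (1 + u * r) + u * ((1 - r : ℝ) : ℂ) := by push_cast; ring
      rw [this]
      refine (norm_add_le _ _).trans ?_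
      rw [norm_mul, hu, one_mul, Complex.norm_real, Real.norm_of_nonneg (by linarith)]
    have a2 : 1 - r ≤ ‖1 + u * r‖ := by
      have := norm_sub_norm_le (1 : ℂ) (-(u * r))
      rw [norm_neg, norm_mul, hu, one_mul, norm_one, Complex.norm_real,
        Real.norm_of_nonneg hr.le, sub_neg_eq_add] at this
      exact this
    linarith
  have h2 : δ ≤ ‖w‖ := by
    have a3 : (1 + u * r) - w = -(u * (r * (Complex.exp (-(θ * I)) - 1))) := by
      rw [hw]; ring
    have a4 : ‖(1 + u * r) - w‖ ≤ θ := by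
      rw [a3, norm_neg, norm_mul, norm_mul, hu, one_mul, Complex.norm_real,
        Real.norm_of_nonneg hr.le]
      calc r * ‖Complex.exp (-(θ * I)) - 1‖ ≤ 1 * θ :=
            mul_le_mul hr1.le he (norm_nonneg _) zero_le_one
        _ = θ := one_mul _
    have a5 := norm_sub_norm_le (1 + u * r) w
    linarith
  have h3 : ‖w‖ ≤ 2 := by
    rw [hw]
    refine (norm_add_le _ _).trans ?_
    rw [norm_mul, norm_mul, hu, one_mul, hn, mul_one, norm_one, Complex.norm_real,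
      Real.norm_of_nonneg hr.le]
    linarith
  have hw0 : 0 < ‖w‖ := lt_of_lt_of_le hδ0 h2
  rw [← hw]
  refine (Complex.norm_le_abs_re_add_abs_im _).trans ?_
  rw [Complex.log_re, Complex.log_im]
  have hl1 : Real.log ‖w‖ ≤ Real.log 2 := Real.log_le_log hw0 h3
  have hl2 : Real.log δ ≤ Real.log ‖w‖ := Real.log_le_log hδ0 h2
  have hδ1 : δ ≤ 1 / 2 := by
    have : ‖1 + u‖ ≤ 2 := by
      refine (norm_add_le _ _).trans ?_
      rw [hu, norm_one]
      norm_num
    linarith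
  have hl3 : Real.log δ ≤ 0 := Real.log_nonpos hδ0.le (by linarith)
  have hl4 : 0 ≤ Real.log 2 := Real.log_nonneg (by norm_num)
  have ha := Complex.abs_arg_le_pi w
  have hb : |Real.log ‖w‖| ≤ Real.log 2 - Real.log δ := by
    rw [abs_le]
    constructor <;> linarith
  linarith

theorem re_formula (hu : ‖u‖ = 1) (κ : ℝ) {z : ℂ} :
    (-(κ : ℂ) * conj u * hh u z).re =
      -κ * Real.log ‖1 - z⁻¹‖ + -κ * (conj u * Complex.log (1 + u * z⁻¹)).re := by
  have huu : conj u * u = 1 := by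
    rw [Complex.conj_mul', hu]
    simp
  have : -(κ : ℂ) * conj u * hh u z = ((-κ : ℝ) : ℂ) * Complex.log (1 - z⁻¹) +
      ((-κ : ℝ) : ℂ) * (conj u * Complex.log (1 + u * z⁻¹)) := by
    unfold hh
    push_cast
    linear_combination (-(κ : ℂ) * Complex.log (1 - z⁻¹)) * huu
  rw [this, Complex.add_re, Complex.re_ofReal_mul, Complex.re_ofReal_mul, Complex.log_re]

/-- the lower bound for the means -/
theorem mean_lower (hu : ‖u‖ = 1) (hu1 : u ≠ -1) {κ : ℝ} (hκ : 1 < κ) :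
    ∃ c : ℝ, 0 < c ∧ ∀ R : ℝ, 1 < R →
      c * (R ^ 2 / (R ^ 2 - 1)) ^ (κ - 1) ≤ (2 * π)⁻¹ * ∫ θ in (0:ℝ)..(2 * π),
        Real.exp (-(κ : ℂ) * conj u * hh u (R * Complex.exp (θ * I))).re := by
  have hpi := Real.pi_gt_three
  have hne : 1 + u ≠ 0 := by
    intro h
    apply hu1
    linear_combination h
  obtain ⟨δ, hδ⟩ : ∃ δ : ℝ, 4 * δ = ‖1 + u‖ := ⟨‖1 + u‖ / 4, by ring⟩
  have hδ0 : 0 < δ := by
    have := norm_pos_iff.2 hne
    linarith
  have hδ1 : δ ≤ 1 / 2 := by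
    have : ‖1 + u‖ ≤ 2 := by
      refine (norm_add_le _ _).trans ?_
      rw [hu, norm_one]
      norm_num
    linarith
  obtain ⟨M, hM⟩ : ∃ M : ℝ, M = Real.log 2 - Real.log δ + π := ⟨_, rfl⟩
  refine ⟨(2 * π)⁻¹ * (δ * (2 ^ (-κ) * Real.exp (-(κ * M)))), by positivity, fun R hR => ?_⟩
  obtain ⟨r, hr⟩ : ∃ r : ℝ, r = R⁻¹ := ⟨_, rfl⟩
  have hR0 : 0 < R := by linarith
  have hr0 : 0 < r := by rw [hr]; positivity
  have hr1 : r < 1 := by rw [hr]; exact inv_lt_one_of_one_lt₀ hR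
  obtain ⟨d, hd⟩ : ∃ d : ℝ, d = 1 - r := ⟨_, rfl⟩
  have hd0 : 0 < d := by linarith
  have hd1 : d < 1 := by linarith
  -- the left side
  have hL : (R ^ 2 / (R ^ 2 - 1)) ^ (κ - 1) ≤ d * d ^ (-κ) := by
    have e1 : R ^ 2 / (R ^ 2 - 1) ≤ d⁻¹ := by
      have h1 : 0 < R ^ 2 - 1 := by nlinarith
      rw [hd, hr, div_le_iff₀ h1]
      have h2 : 0 < R - 1 := by linarith
      have h3 : (1 - R⁻¹)⁻¹ = R / (R - 1) := by field_simp
      rw [h3, div_mul_eq_mul_div, le_div_iff₀ h2]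
      nlinarith
    have e2 : d⁻¹ ^ (κ - 1) = d * d ^ (-κ) := by
      rw [Real.inv_rpow hd0.le, ← Real.rpow_neg hd0.le]
      nth_rw 2 [← Real.rpow_one d]
      rw [← Real.rpow_add hd0]
      congr 1
      ring
    rw [← e2]
    refine Real.rpow_le_rpow ?_ e1 (by linarith)
    have h1 : 0 < R ^ 2 - 1 := by nlinarith
    positivity
  -- the integrand
  obtain ⟨F, hF⟩ : ∃ F : ℝ → ℝ, F = fun θ : ℝ =>
    Real.exp (-(κ : ℂ) * conj u * hh u (R * Complex.exp (θ * I))).re := ⟨_, rfl⟩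
  have hout : ∀ θ : ℝ, 1 < ‖(R : ℂ) * Complex.exp (θ * I)‖ := by
    intro θ
    rw [norm_mul, Complex.norm_exp_ofReal_mul_I, mul_one, Complex.norm_real,
      Real.norm_of_nonneg hR0.le]
    exact hR
  have hc : Continuous F := by
    rw [hF]
    have h1 : Continuous (fun θ : ℝ => hh u (R * Complex.exp (θ * I))) :=
      (hh_diff hu).continuousOn.comp_continuous (by fun_prop) hout
    exact Real.continuous_exp.comp (Complex.continuous_re.comp (continuous_const.mul h1))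
  have hF0 : ∀ θ, 0 ≤ F θ := by
    intro θ
    rw [hF]
    exact (Real.exp_pos _).le
  have hb : δ * d ≤ 2 * π := by nlinarith
  have hb0 : 0 ≤ δ * d := by positivity
  have h1 : ∫ θ in (0:ℝ)..(δ * d), F θ ≤ ∫ θ in (0:ℝ)..(2 * π), F θ :=
    intervalIntegral.integral_mono_interval le_rfl hb0 hb (Filter.Eventually.of_forall
      (fun θ => hF0 θ)) (hc.intervalIntegrable _ _)
  have h2 : ∫ _θ in (0:ℝ)..(δ * d), ((2 * d) ^ (-κ) * Real.exp (-(κ * M))) ≤
      ∫ θ in (0:ℝ)..(δ * d), F θ := by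
    refine intervalIntegral.integral_mono_on hb0 (continuous_const.intervalIntegrable _ _)
      (hc.intervalIntegrable _ _) (fun θ hθ => ?_)
    rw [hF]
    have ei : ((R : ℂ) * Complex.exp (θ * I))⁻¹ = r * Complex.exp (-(θ * I)) := by
      rw [mul_inv, ← Complex.exp_neg, hr]
      push_cast
      rfl
    have hθ1 : θ ≤ δ := hθ.2.trans (by nlinarith)
    have hθ2 : θ ≤ d := hθ.2.trans (by nlinarith)
    have hlog := log_bound hu hδ hδ0 hr0 hr1 hθ.1 hθ1
    rw [← hM, ← ei] at hlog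
    have hre : (conj u * Complex.log (1 + u * ((R : ℂ) * Complex.exp (θ * I))⁻¹)).re ≤ M := by
      refine (Complex.re_le_norm _).trans ?_
      rw [norm_mul, Complex.norm_conj, hu, one_mul]
      exact hlog
    have hnorm : ‖1 - ((R : ℂ) * Complex.exp (θ * I))⁻¹‖ ≤ 2 * d := by
      rw [ei]
      have e3 : (1 : ℂ) - r * Complex.exp (-(θ * I)) =
          ((1 - r : ℝ) : ℂ) - r * (Complex.exp (-(θ * I)) - 1) := by
        push_cast; ring
      have he : ‖Complex.exp (-(θ * I)) - 1‖ ≤ θ := by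
        have := Real.norm_exp_I_mul_ofReal_sub_one_le (x := -θ)
        rw [Real.norm_eq_abs, abs_neg, abs_of_nonneg hθ.1] at this
        rw [show -((θ : ℂ) * I) = I * ((-θ : ℝ) : ℂ) by push_cast; ring]
        exact this
      rw [e3]
      refine (norm_sub_le _ _).trans ?_
      rw [norm_mul, Complex.norm_real, Complex.norm_real, Real.norm_of_nonneg (by linarith),
        Real.norm_of_nonneg hr0.le]
      have h5 : r * ‖Complex.exp (-(θ * I)) - 1‖ ≤ 1 * θ :=
        mul_le_mul hr1.le he (norm_nonneg _) zero_le_one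
      linarith
    have hpos : 0 < ‖1 - ((R : ℂ) * Complex.exp (θ * I))⁻¹‖ := by
      have := re_pos1 (hout θ)
      exact lt_of_lt_of_le this (Complex.re_le_norm _)
    beta_reduce
    rw [re_formula hu]
    have e5 : (2 * d) ^ (-κ) * Real.exp (-(κ * M)) =
        Real.exp (-κ * Real.log (2 * d) + -κ * M) := by
      rw [Real.rpow_def_of_pos (by positivity), ← Real.exp_add]
      congr 1
      ring
    rw [e5]
    refine Real.exp_le_exp.2 ?_
    have l1 := Real.log_le_log hpos hnorm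
    have k1 : -κ * Real.log (2 * d) ≤ -κ * Real.log ‖1 - ((R : ℂ) * Complex.exp (θ * I))⁻¹‖ :=
      mul_le_mul_of_nonpos_left l1 (by linarith)
    have k2 := mul_le_mul_of_nonpos_left hre (show -κ ≤ 0 by linarith)
    linarith
  rw [intervalIntegral.integral_const, sub_zero, smul_eq_mul, Real.mul_rpow (by norm_num) hd0.le]
    at h2
  have h3 := h2.trans h1
  have h4 := mul_le_mul_of_nonneg_left h3 (show 0 ≤ (2 * π)⁻¹ by positivity)
  rw [hF] at h4
  refine le_trans ?_ h4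
  have h6 := mul_le_mul_of_nonneg_left hL
    (show 0 ≤ (2 * π)⁻¹ * (δ * (2 ^ (-κ) * Real.exp (-(κ * M)))) by positivity)
  refine h6.trans (le_of_eq ?_)
  ring

/-- sharpness for complex exponents -/
theorem sharp_u (hu : ‖u‖ = 1) (hu1 : u ≠ -1) : ∃ ψ h : ℂ → ℂ,
    DifferentiableOn ℂ ψ {z : ℂ | 1 < ‖z‖} ∧ InjOn ψ {z : ℂ | 1 < ‖z‖} ∧
    (∃ b : ℂ, Tendsto (fun z => ψ z - z) (Bornology.cobounded ℂ) (𝓝 b)) ∧
    DifferentiableOn ℂ h {z : ℂ | 1 < ‖z‖} ∧
    (∀ z : ℂ, 1 < ‖z‖ → Complex.exp (h z) = deriv ψ z) ∧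
    Tendsto h (Bornology.cobounded ℂ) (𝓝 0) ∧
    ∀ κ : ℝ, 1 < κ → ∃ c : ℝ, 0 < c ∧ ∀ R : ℝ, 1 < R →
      c * (R ^ 2 / (R ^ 2 - 1)) ^ (κ - 1) ≤ (2 * π)⁻¹ * ∫ θ in (0:ℝ)..(2 * π),
        Real.exp (-(κ : ℂ) * conj u * h (R * Complex.exp (θ * I))).re :=
  ⟨psi u, hh u, psi_diff hu, psi_injOn hu, ⟨_, psi_tendsto u⟩, hh_diff hu,
    fun _ hz => exp_hh hu hz, hh_tendsto u, fun _ hκ => mean_lower hu hu1 hκ⟩

end Pool.Agent.Helper97.EKC
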