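import Mathlib

/-!
MP_16b0ee, project EKC: the logarithmic spiral maps `z (1 - 1/z)^(1+u)`, `|u| = 1`, are univalent
on `|z| > 1`.
-/

set_option autoImplicit false

open Complex MeasureTheory Metric Set
open scoped Real ComplexConjugate

namespace Pool.Agent.Helper97.EKC

section realIneq

theorem mul_cos_le_sin {y : ℝ} (h0 : 0 ≤ y) (h1 : y ≤ π) : y * Real.cos y ≤ Real.sin y := by
  have hd : ∀ t : ℝ, HasDerivAt (fun t => Real.sin t - t * Real.cos t) (t * Real.sin t) t := by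
    intro t
    have h := (Real.hasDerivAt_sin t).sub ((hasDerivAt_id t).mul (Real.hasDerivAt_cos t))
    refine h.congr_deriv ?_
    simp only [id]
    ring
  have hm : MonotoneOn (fun t => Real.sin t - t * Real.cos t) (Icc 0 π) := by
    refine monotoneOn_of_deriv_nonneg (convex_Icc _ _) ?_ ?_ ?_
    · exact fun t _ => (hd t).continuousAt.continuousWithinAt
    · exact fun t _ => (hd t).differentiableAt.differentiableWithinAt
    · intro t ht
      rw [interior_Icc] at ht
      rw [(hd t).deriv]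
      exact mul_nonneg ht.1.le (Real.sin_nonneg_of_nonneg_of_le_pi ht.1.le ht.2.le)
  have h := hm (left_mem_Icc.2 Real.pi_pos.le) ⟨h0, h1⟩ h0
  simp only [Real.sin_zero, zero_mul, sub_zero] at h
  linarith

theorem trigA {x y : ℝ} (_hx : 0 ≤ x) (h0 : 0 ≤ y) (h1 : y ≤ π) :
    y * Real.cos y ≤ y * Real.exp (-x) + x * Real.sin y := by
  have hs := mul_cos_le_sin h0 h1
  have hs0 := Real.sin_nonneg_of_nonneg_of_le_pi h0 h1
  have hsy := Real.sin_le h0
  have he := Real.exp_pos (-x)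
  rcases le_or_gt x 1 with h | h
  · have h2 : 1 - x ≤ Real.exp (-x) := by
      have := Real.add_one_le_exp (-x)
      linarith
    have h3 : y * (1 - x) ≤ y * Real.exp (-x) := mul_le_mul_of_nonneg_left h2 h0
    have h4 : Real.sin y * (1 - x) ≤ y * (1 - x) := mul_le_mul_of_nonneg_right hsy (by linarith)
    nlinarith
  · have h3 : 0 ≤ y * Real.exp (-x) := mul_nonneg h0 he.le
    nlinarith

theorem trigB {x y : ℝ} (hx : 0 ≤ x) (h0 : 0 ≤ y) :
    x * Real.sin y + y * Real.cos y ≤ y * Real.exp x := by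
  have hsy := Real.sin_le h0
  have hc := Real.cos_le_one y
  have h2 : 1 + x ≤ Real.exp x := by
    have := Real.add_one_le_exp x
    linarith
  have h3 : y * (1 + x) ≤ y * Real.exp x := mul_le_mul_of_nonneg_left h2 h0
  have h4 : x * Real.sin y ≤ x * y := mul_le_mul_of_nonneg_left hsy hx
  have h5 : y * Real.cos y ≤ y * 1 := mul_le_mul_of_nonneg_left hc h0
  nlinarith

/-- `cosh x - cos y` on a circle -/
noncomputable def DD (R θ : ℝ) : ℝ := Real.cosh (R * Real.cos θ) - Real.cos (R * Real.sin θ)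

theorem hasDerivAt_DD (R θ : ℝ) : HasDerivAt (DD R)
    (- (R * Real.sin θ) * Real.sinh (R * Real.cos θ) +
      R * Real.cos θ * Real.sin (R * Real.sin θ)) θ := by
  have h1 := ((Real.hasDerivAt_cos θ).const_mul R).cosh
  have h2 := ((Real.hasDerivAt_sin θ).const_mul R).cos
  refine (h1.sub h2).congr_deriv ?_
  ring

theorem keyA {R θ θ' : ℝ} (hR : 0 ≤ R) (h0 : 0 ≤ θ') (h1 : θ' ≤ θ) (h2 : θ ≤ π / 2)
    (h3 : R * Real.sin θ ≤ π) :
    DD R θ' * Real.exp (-(R * Real.cos θ')) ≤ DD R θ * Real.exp (-(R * Real.cos θ)) := by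
  have hpi := Real.pi_pos
  have hd : ∀ t : ℝ, HasDerivAt (fun t => DD R t * Real.exp (-(R * Real.cos t)))
      (Real.exp (-(R * Real.cos t)) * (R * Real.sin t * Real.exp (-(R * Real.cos t)) +
        R * Real.cos t * Real.sin (R * Real.sin t) -
        R * Real.sin t * Real.cos (R * Real.sin t))) t := by
    intro t
    have e1 := (((Real.hasDerivAt_cos t).const_mul R).neg).exp
    refine ((hasDerivAt_DD R t).mul e1).congr_deriv ?_
    have e2 : Real.sinh (R * Real.cos t) =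
        Real.cosh (R * Real.cos t) - Real.exp (-(R * Real.cos t)) := by
      have := Real.cosh_sub_sinh (R * Real.cos t)
      linarith
    rw [e2]
    unfold DD
    simp only [Pi.neg_apply]
    ring
  have hm : MonotoneOn (fun t => DD R t * Real.exp (-(R * Real.cos t))) (Icc 0 θ) := by
    refine monotoneOn_of_deriv_nonneg (convex_Icc _ _) ?_ ?_ ?_
    · exact fun t _ => (hd t).continuousAt.continuousWithinAt
    · exact fun t _ => (hd t).differentiableAt.differentiableWithinAt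
    · intro t ht
      rw [interior_Icc] at ht
      rw [(hd t).deriv]
      refine mul_nonneg (Real.exp_pos _).le ?_
      have hc : 0 ≤ Real.cos t := Real.cos_nonneg_of_neg_pi_div_two_le_of_le
        (by linarith [ht.1]) (by linarith [ht.2])
      have hs : 0 ≤ Real.sin t := Real.sin_nonneg_of_nonneg_of_le_pi ht.1.le
        (by linarith [ht.2])
      have hss : Real.sin t ≤ Real.sin θ := Real.sin_le_sin_of_le_of_le_pi_div_two
        (by linarith [ht.1]) h2 ht.2.le
      have := trigA (mul_nonneg hR hc) (mul_nonneg hR hs)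
        ((mul_le_mul_of_nonneg_left hss hR).trans h3)
      linarith
  exact hm ⟨h0, h1⟩ ⟨h0.trans h1, le_rfl⟩ h1

theorem keyB {R θ θ' : ℝ} (hR : 0 ≤ R) (h0 : 0 ≤ θ) (h1 : θ ≤ θ') (h2 : θ' ≤ π / 2) :
    DD R θ' * Real.exp (R * Real.cos θ') ≤ DD R θ * Real.exp (R * Real.cos θ) := by
  have hpi := Real.pi_pos
  have hd : ∀ t : ℝ, HasDerivAt (fun t => DD R t * Real.exp (R * Real.cos t))
      (Real.exp (R * Real.cos t) * (R * Real.cos t * Real.sin (R * Real.sin t) +
        R * Real.sin t * Real.cos (R * Real.sin t) - R * Real.sin t * Real.exp (R * Real.cos t)))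
      t := by
    intro t
    have e1 := ((Real.hasDerivAt_cos t).const_mul R).exp
    refine ((hasDerivAt_DD R t).mul e1).congr_deriv ?_
    have e2 : Real.sinh (R * Real.cos t) =
        Real.exp (R * Real.cos t) - Real.cosh (R * Real.cos t) := by
      have := Real.cosh_add_sinh (R * Real.cos t)
      linarith
    rw [e2]
    unfold DD
    ring
  have hm : AntitoneOn (fun t => DD R t * Real.exp (R * Real.cos t)) (Icc 0 (π / 2)) := by
    refine antitoneOn_of_deriv_nonpos (convex_Icc _ _) ?_ ?_ ?_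
    · exact fun t _ => (hd t).continuousAt.continuousWithinAt
    · exact fun t _ => (hd t).differentiableAt.differentiableWithinAt
    · intro t ht
      rw [interior_Icc] at ht
      rw [(hd t).deriv]
      refine mul_nonpos_of_nonneg_of_nonpos (Real.exp_pos _).le ?_
      have hc : 0 ≤ Real.cos t := Real.cos_nonneg_of_neg_pi_div_two_le_of_le
        (by linarith [ht.1]) (by linarith [ht.2])
      have hs : 0 ≤ Real.sin t := Real.sin_nonneg_of_nonneg_of_le_pi ht.1.le
        (by linarith [ht.2])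
      have := trigB (mul_nonneg hR hc) (mul_nonneg hR hs)
      linarith
  exact hm ⟨h0, h1.trans h2⟩ ⟨h0.trans h1, h2⟩ h1

theorem polar (x y : ℝ) : ∃ θ : ℝ, 0 ≤ θ ∧ θ ≤ π / 2 ∧
    √(x ^ 2 + y ^ 2) * Real.cos θ = |x| ∧ √(x ^ 2 + y ^ 2) * Real.sin θ = |y| := by
  obtain ⟨w, hw⟩ : ∃ w : ℂ, w = ⟨|x|, |y|⟩ := ⟨_, rfl⟩
  have hn : ‖w‖ = √(x ^ 2 + y ^ 2) := by
    rw [Complex.norm_def, Complex.normSq_apply, hw]
    congr 1
    simp only
    rw [abs_mul_abs_self, abs_mul_abs_self]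
    ring
  refine ⟨Complex.arg w, ?_, ?_, ?_, ?_⟩
  · rw [Complex.arg_nonneg_iff, hw]
    exact abs_nonneg _
  · refine (Complex.arg_le_pi_div_two_iff).2 (Or.inl ?_)
    rw [hw]
    exact abs_nonneg _
  · rw [← hn, Complex.norm_mul_cos_arg, hw]
  · rw [← hn, Complex.norm_mul_sin_arg, hw]

/-- the main inequality -/
theorem main_ineq {x y x' y' : ℝ} (h : x ^ 2 + y ^ 2 = x' ^ 2 + y' ^ 2) (hy : |y| ≤ π) :
    Real.cosh x' - Real.cos y' ≤ Real.exp |x + x'| * (Real.cosh x - Real.cos y) := by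
  obtain ⟨θ, a0, a1, a2, a3⟩ := polar x y
  obtain ⟨θ', b0, b1, b2, b3⟩ := polar x' y'
  rw [← h] at b2 b3
  obtain ⟨R, hR⟩ : ∃ R : ℝ, R = √(x ^ 2 + y ^ 2) := ⟨_, rfl⟩
  rw [← hR] at a2 a3 b2 b3
  have hR0 : 0 ≤ R := by rw [hR]; exact Real.sqrt_nonneg _
  have hD : Real.cosh x - Real.cos y = DD R θ := by
    unfold DD
    rw [a2, a3, Real.cosh_abs, Real.cos_abs]
  have hD' : Real.cosh x' - Real.cos y' = DD R θ' := by
    unfold DD
    rw [b2, b3, Real.cosh_abs, Real.cos_abs]
  have hD0 : 0 ≤ DD R θ := by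
    rw [← hD]
    linarith [Real.one_le_cosh x, Real.cos_le_one y]
  rw [hD, hD']
  have ht1 : |x'| - |x| ≤ |x + x'| := by
    have := abs_sub_abs_le_abs_sub x' (-x)
    rw [abs_neg] at this
    rw [show x' - -x = x + x' by ring] at this
    exact this
  have ht2 : |x| - |x'| ≤ |x + x'| := by
    have := abs_sub_abs_le_abs_sub x (-x')
    rw [abs_neg] at this
    rw [show x - -x' = x + x' by ring] at this
    exact this
  rcases le_total θ' θ with hc | hc
  · have hk := keyA hR0 b0 hc a1 (by rw [a3]; exact hy)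
    rw [a2, b2] at hk
    have h5 : DD R θ' ≤ DD R θ * Real.exp (|x'| - |x|) := by
      have h6 := mul_le_mul_of_nonneg_right hk (Real.exp_pos |x'|).le
      rw [mul_assoc, mul_assoc, ← Real.exp_add, ← Real.exp_add] at h6
      rw [show -|x'| + |x'| = 0 by ring, Real.exp_zero, mul_one] at h6
      rw [show |x'| - |x| = -|x| + |x'| by ring]
      exact h6
    calc DD R θ' ≤ DD R θ * Real.exp (|x'| - |x|) := h5
      _ ≤ DD R θ * Real.exp |x + x'| :=
        mul_le_mul_of_nonneg_left (Real.exp_le_exp.2 ht1) hD0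
      _ = _ := mul_comm _ _
  · have hk := keyB hR0 a0 hc b1
    rw [a2, b2] at hk
    have h5 : DD R θ' ≤ DD R θ * Real.exp (|x| - |x'|) := by
      have h6 := mul_le_mul_of_nonneg_right hk (Real.exp_pos (-|x'|)).le
      rw [mul_assoc, mul_assoc, ← Real.exp_add, ← Real.exp_add] at h6
      rw [show |x'| + -|x'| = 0 by ring, Real.exp_zero, mul_one] at h6
      rw [show |x| - |x'| = |x| + -|x'| by ring]
      exact h6
    calc DD R θ' ≤ DD R θ * Real.exp (|x| - |x'|) := h5
      _ ≤ DD R θ * Real.exp |x + x'| :=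
        mul_le_mul_of_nonneg_left (Real.exp_le_exp.2 ht2) hD0
      _ = _ := mul_comm _ _

end realIneq

section complexIneq

theorem normSq_exp_sub_one (w : ℂ) :
    ‖Complex.exp w - 1‖ ^ 2 = 2 * Real.exp w.re * (Real.cosh w.re - Real.cos w.im) := by
  rw [← Complex.normSq_eq_norm_sq, Complex.normSq_apply, Complex.sub_re, Complex.sub_im,
    Complex.exp_re, Complex.exp_im, Complex.one_re, Complex.one_im, Real.cosh_eq]
  have h1 := Real.sin_sq_add_cos_sq w.im
  have h2 : Real.exp w.re * Real.exp (-w.re) = 1 := by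
    rw [← Real.exp_add]; simp
  have h3 : Real.exp w.re * Real.exp w.re * (Real.sin w.im ^ 2 + Real.cos w.im ^ 2) =
      Real.exp w.re * Real.exp w.re := by rw [h1, mul_one]
  linear_combination h3 - h2

/-- no non-trivial solution of the two strict inequalities -/
theorem no_pair {A u : ℂ} (hu : ‖u‖ = 1) (hA : |A.im| ≤ π)
    (h1 : ‖Complex.exp (-A) - 1‖ < ‖Complex.exp (u * A) - 1‖)
    (h2 : ‖Complex.exp A - 1‖ < ‖Complex.exp (-(u * A)) - 1‖) : False := by
  have e1 : ‖Complex.exp (-A) - 1‖ ^ 2 < ‖Complex.exp (u * A) - 1‖ ^ 2 :=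
    pow_lt_pow_left₀ h1 (norm_nonneg _) two_ne_zero
  have e2 : ‖Complex.exp A - 1‖ ^ 2 < ‖Complex.exp (-(u * A)) - 1‖ ^ 2 :=
    pow_lt_pow_left₀ h2 (norm_nonneg _) two_ne_zero
  rw [normSq_exp_sub_one, normSq_exp_sub_one] at e1 e2
  simp only [Complex.neg_re, Complex.neg_im, Real.cosh_neg, Real.cos_neg] at e1 e2
  obtain ⟨x', hx'⟩ : ∃ x' : ℝ, x' = (u * A).re := ⟨_, rfl⟩
  obtain ⟨y', hy'⟩ : ∃ y' : ℝ, y' = (u * A).im := ⟨_, rfl⟩
  rw [← hx', ← hy'] at e1 e2
  have hn : A.re ^ 2 + A.im ^ 2 = x' ^ 2 + y' ^ 2 := by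
    have n1 : ‖u * A‖ ^ 2 = ‖A‖ ^ 2 := by rw [norm_mul, hu, one_mul]
    rw [← Complex.normSq_eq_norm_sq, ← Complex.normSq_eq_norm_sq, Complex.normSq_apply,
      Complex.normSq_apply, ← hx', ← hy'] at n1
    nlinarith
  have hm := main_ineq hn hA
  obtain ⟨D, hD⟩ : ∃ D : ℝ, D = Real.cosh A.re - Real.cos A.im := ⟨_, rfl⟩
  obtain ⟨D', hD'⟩ : ∃ D' : ℝ, D' = Real.cosh x' - Real.cos y' := ⟨_, rfl⟩
  rw [← hD, ← hD'] at e1 e2 hm
  have p1 := Real.exp_pos x'
  have p2 := Real.exp_pos (-x')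
  have q1 : Real.exp (-(A.re + x')) * D < D' := by
    have h5 : Real.exp (-A.re) * D < Real.exp x' * D' := by nlinarith
    have h6 := mul_lt_mul_of_pos_left h5 p2
    rw [← mul_assoc, ← mul_assoc, ← Real.exp_add, ← Real.exp_add] at h6
    rw [show -x' + x' = 0 by ring, Real.exp_zero, one_mul] at h6
    rw [show -(A.re + x') = -x' + -A.re by ring]
    exact h6
  have q2 : Real.exp (A.re + x') * D < D' := by
    have h5 : Real.exp A.re * D < Real.exp (-x') * D' := by nlinarith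
    have h6 := mul_lt_mul_of_pos_left h5 p1
    rw [← mul_assoc, ← mul_assoc, ← Real.exp_add, ← Real.exp_add] at h6
    rw [show x' + -x' = 0 by ring, Real.exp_zero, one_mul] at h6
    rw [show A.re + x' = x' + A.re by ring]
    exact h6
  rcases abs_cases (A.re + x') with h | h
  · rw [h.1] at hm
    linarith
  · rw [h.1] at hm
    linarith

end complexIneq

section maps

variable {u : ℂ}

/-- the spiral map -/
noncomputable def psi (u z : ℂ) : ℂ := z * Complex.exp ((1 + u) * Complex.log (1 - z⁻¹))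

/-- the logarithm of its derivative -/
noncomputable def hh (u z : ℂ) : ℂ :=
  u * Complex.log (1 - z⁻¹) + Complex.log (1 + u * z⁻¹)

theorem re_pos_of {w : ℂ} (hw : ‖w‖ < 1) : 0 < (1 - w).re := by
  have := (Complex.re_le_norm w).trans_lt hw
  rw [Complex.sub_re, Complex.one_re]
  linarith

theorem norm_inv_lt {z : ℂ} (hz : 1 < ‖z‖) : ‖z⁻¹‖ < 1 := by
  rw [norm_inv]
  exact inv_lt_one_of_one_lt₀ hz

theorem re_pos1 {z : ℂ} (hz : 1 < ‖z‖) : 0 < (1 - z⁻¹).re := re_pos_of (norm_inv_lt hz)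

theorem re_pos2 {z : ℂ} (hu : ‖u‖ = 1) (hz : 1 < ‖z‖) : 0 < (1 + u * z⁻¹).re := by
  have h := re_pos_of (w := -(u * z⁻¹)) (by
    rw [norm_neg, norm_mul, hu, one_mul]
    exact norm_inv_lt hz)
  rwa [sub_neg_eq_add] at h

theorem ne_zero_of {z : ℂ} (hz : 1 < ‖z‖) : z ≠ 0 := by
  intro h
  rw [h, norm_zero] at hz
  linarith

theorem psi_injOn (hu : ‖u‖ = 1) : InjOn (psi u) {z : ℂ | 1 < ‖z‖} := by
  intro z₁ h₁ z₂ h₂ he
  have hz1 : 1 < ‖z₁‖ := h₁
  have hz2 : 1 < ‖z₂‖ := h₂
  obtain ⟨a, ha⟩ : ∃ a : ℂ, a = z₁⁻¹ := ⟨_, rfl⟩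
  obtain ⟨b, hb⟩ : ∃ b : ℂ, b = z₂⁻¹ := ⟨_, rfl⟩
  have ha1 : ‖a‖ < 1 := by rw [ha]; exact norm_inv_lt hz1
  have hb1 : ‖b‖ < 1 := by rw [hb]; exact norm_inv_lt hz2
  have ha0 : a ≠ 0 := by rw [ha]; exact inv_ne_zero (ne_zero_of hz1)
  have hb0 : b ≠ 0 := by rw [hb]; exact inv_ne_zero (ne_zero_of hz2)
  unfold psi at he
  rw [← ha, ← hb, show z₁ = a⁻¹ by rw [ha, inv_inv], show z₂ = b⁻¹ by rw [hb, inv_inv]] at he
  have pa := re_pos_of ha1
  have pb := re_pos_of hb1
  have na : (1 - a) ≠ 0 := by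
    intro h
    rw [h, Complex.zero_re] at pa
    exact lt_irrefl _ pa
  have nb : (1 - b) ≠ 0 := by
    intro h
    rw [h, Complex.zero_re] at pb
    exact lt_irrefl _ pb
  obtain ⟨A, hA⟩ : ∃ A : ℂ, A = Complex.log (1 - a) - Complex.log (1 - b) := ⟨_, rfl⟩
  have hAim : |A.im| < π := by
    rw [hA, Complex.sub_im, Complex.log_im, Complex.log_im]
    have t1 := Complex.abs_arg_lt_pi_div_two_iff.2 (Or.inl pa)
    have t2 := Complex.abs_arg_lt_pi_div_two_iff.2 (Or.inl pb)
    rw [abs_lt] at t1 t2 ⊢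
    constructor <;> linarith [t1.1, t1.2, t2.1, t2.2]
  have eA : Complex.exp A * (1 - b) = 1 - a := by
    rw [hA, Complex.exp_sub, Complex.exp_log na, Complex.exp_log nb]
    field_simp
  have eB : Complex.exp ((1 + u) * A) * b = a := by
    have e1 : (1 + u) * A = (1 + u) * Complex.log (1 - a) - (1 + u) * Complex.log (1 - b) := by
      rw [hA]; ring
    rw [e1, Complex.exp_sub]
    have nE := Complex.exp_ne_zero ((1 + u) * Complex.log (1 - b))
    field_simp at he ⊢
    exact he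
  have eu : Complex.exp ((1 + u) * A) = Complex.exp A * Complex.exp (u * A) := by
    rw [← Complex.exp_add]; congr 1; ring
  rw [eu] at eB
  have nA := Complex.exp_ne_zero A
  have nU := Complex.exp_ne_zero (u * A)
  have k1 : Complex.exp (-A) - 1 = (Complex.exp (u * A) - 1) * b := by
    rw [Complex.exp_neg]
    field_simp
    linear_combination (-1 : ℂ) * eA - eB
  have k2 : Complex.exp A - 1 = (Complex.exp (-(u * A)) - 1) * a := by
    rw [Complex.exp_neg]
    field_simp
    rw [← eB] at eA ⊢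
    linear_combination (Complex.exp (u * A)) * eA
  by_cases h0 : Complex.exp (u * A) = 1
  · rw [h0, sub_self, zero_mul, Complex.exp_neg, sub_eq_zero, inv_eq_one] at k1
    have : A = 0 := by
      rw [Complex.exp_eq_one_iff] at k1
      obtain ⟨n, hn⟩ := k1
      have h4 := congrArg Complex.im hn
      have h5 : A.im = 2 * π * n := by
        rw [h4]
        simp
        ring
      rw [h5] at hAim
      have hn0 : n = 0 := by
        by_contra hne
        have h6 : (1 : ℝ) ≤ |(n : ℝ)| := by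
          have := Int.one_le_abs hne
          exact_mod_cast this
        rw [abs_mul, abs_of_pos (by positivity : (0:ℝ) < 2 * π)] at hAim
        nlinarith [Real.pi_pos]
      rw [hn, hn0]
      simp
    rw [this, mul_zero, Complex.exp_zero, one_mul, one_mul] at eB
    have : z₁⁻¹ = z₂⁻¹ := by rw [← ha, ← hb, eB]
    exact inv_injective this
  · exfalso
    have h0' : Complex.exp (-(u * A)) ≠ 1 := by
      rw [Complex.exp_neg]
      intro h
      exact h0 (inv_eq_one.1 h)
    refine no_pair hu hAim.le ?_ ?_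
    · rw [k1, norm_mul]
      exact mul_lt_of_lt_one_right (norm_pos_iff.2 (sub_ne_zero.2 h0)) hb1
    · rw [k2, norm_mul]
      exact mul_lt_of_lt_one_right (norm_pos_iff.2 (sub_ne_zero.2 h0')) ha1

theorem hasDerivAt_psi {z : ℂ} (hu : ‖u‖ = 1) (hz : 1 < ‖z‖) :
    HasDerivAt (psi u) (Complex.exp (hh u z)) z := by
  have h0 := ne_zero_of hz
  have p1 := re_pos1 hz
  have p2 := re_pos2 (u := u) hu hz
  have n1 : (1 - z⁻¹) ≠ 0 := by
    intro h
    rw [h, Complex.zero_re] at p1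
    exact lt_irrefl _ p1
  have n2 : (1 + u * z⁻¹) ≠ 0 := by
    intro h
    rw [h, Complex.zero_re] at p2
    exact lt_irrefl _ p2
  have d1 : HasDerivAt (fun z : ℂ => Complex.log (1 - z⁻¹)) (-(-(z ^ 2)⁻¹) / (1 - z⁻¹)) z :=
    ((hasDerivAt_inv h0).const_sub 1).clog (Or.inl p1)
  have d2 := (hasDerivAt_id z).mul ((d1.const_mul (1 + u)).cexp)
  refine d2.congr_deriv ?_
  unfold hh
  have e1 : Complex.exp (u * Complex.log (1 - z⁻¹) + Complex.log (1 + u * z⁻¹)) =
      Complex.exp (u * Complex.log (1 - z⁻¹)) * (1 + u * z⁻¹) := by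
    rw [Complex.exp_add, Complex.exp_log n2]
  have e2 : Complex.exp ((1 + u) * Complex.log (1 - z⁻¹)) =
      (1 - z⁻¹) * Complex.exp (u * Complex.log (1 - z⁻¹)) := by
    rw [add_mul, one_mul, Complex.exp_add, Complex.exp_log n1]
  rw [e1, e2]
  simp only [id]
  have n3 : z - 1 ≠ 0 := by
    intro h
    apply n1
    rw [sub_eq_zero.1 h]
    simp
  field_simp
  ring

theorem hasDerivAt_hh {z : ℂ} (hu : ‖u‖ = 1) (hz : 1 < ‖z‖) :
    ∃ d, HasDerivAt (hh u) d z := by
  have h0 := ne_zero_of hz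
  have p1 := re_pos1 hz
  have p2 := re_pos2 (u := u) hu hz
  have d1 : HasDerivAt (fun z : ℂ => Complex.log (1 - z⁻¹)) (-(-(z ^ 2)⁻¹) / (1 - z⁻¹)) z :=
    ((hasDerivAt_inv h0).const_sub 1).clog (Or.inl p1)
  have d2 : HasDerivAt (fun z : ℂ => Complex.log (1 + u * z⁻¹))
      (u * (-(z ^ 2)⁻¹) / (1 + u * z⁻¹)) z :=
    (((hasDerivAt_inv h0).const_mul u).const_add 1).clog (Or.inl p2)
  exact ⟨_, (d1.const_mul u).add d2⟩

end maps

end Pool.Agent.Helper97.EKC
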